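import Pool.Agent.Helper78.DT.Goals

/-!
# DT-BAL: a set of at most `W` names is balanced for most partitions
-/

namespace Pool.Agent.Helper38.DT

open scoped Classical
open Pool.Agent.Helper78.DT

/-- The number of the `y < P` with `y % K = j`. -/
theorem card_mod_le (P K j : ℕ) :
    ((Finset.range P).filter fun y => y % K = j).card ≤ P / K + 1 := by
  calc ((Finset.range P).filter fun y => y % K = j).card
      ≤ (Finset.range (P / K + 1)).card := by
        refine Finset.card_le_card_of_injOn (fun y => y / K) ?_ ?_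
        · intro y hy
          have hy' := (Finset.mem_filter.1 (Finset.mem_coe.1 hy)).1
          rw [Finset.mem_range] at hy'
          simp only [Finset.coe_range, Set.mem_Iio]
          exact Nat.lt_succ_of_le (Nat.div_le_div_right hy'.le)
        · intro y hy y' hy' h
          have h1 := (Finset.mem_filter.1 (Finset.mem_coe.1 hy)).2
          have h2 := (Finset.mem_filter.1 (Finset.mem_coe.1 hy')).2
          have h3 : y / K = y' / K := h
          rw [← Nat.div_add_mod y K, ← Nat.div_add_mod y' K, h1, h2, h3]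
    _ = P / K + 1 := Finset.card_range _

theorem card_mod_le_real (P K j : ℕ) (hK : 0 < K) (hKP : K ≤ P) :
    (((Finset.range P).filter fun y => y % K = j).card : ℝ) ≤ 2 / (K : ℝ) * P := by
  have h1 : (((Finset.range P).filter fun y => y % K = j).card : ℝ) ≤ ((P / K + 1 : ℕ) : ℝ) := by
    exact_mod_cast card_mod_le P K j
  have h2 : ((P / K : ℕ) : ℝ) ≤ (P : ℝ) / K := Nat.cast_div_le
  have hK' : (0 : ℝ) < K := by exact_mod_cast hK
  have h3 : (1 : ℝ) ≤ (P : ℝ) / K := by
    rw [le_div_iff₀ hK', one_mul]
    exact_mod_cast hKP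
  push_cast at h1
  have h4 : 2 / (K : ℝ) * P = (P : ℝ) / K + (P : ℝ) / K := by ring
  rw [h4]
  linarith

theorem ext_cons_zero {n P : ℕ} (z : Fin P) (B : Fin n → Fin P) :
    ext (Fin.cons z B : Fin (n + 1) → Fin P) 0 = (z : ℕ) := by
  unfold ext
  rw [dif_pos (Nat.succ_pos n)]
  rfl

theorem ext_cons_succ {n P : ℕ} (z : Fin P) (B : Fin n → Fin P) (i : ℕ) :
    ext (Fin.cons z B : Fin (n + 1) → Fin P) (i + 1) = ext B i := by
  unfold ext
  by_cases h : i < n
  · rw [dif_pos h, dif_pos (Nat.succ_lt_succ h)]
    rfl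
  · rw [dif_neg h, dif_neg (fun h' => h (Nat.lt_of_succ_lt_succ h'))]

/-- One set of `t + 1` points and one part. -/
theorem one_set (hLag : LagStmt) (P K t j : ℕ) (hP : P.Prime) (hK : 0 < K) (hKP : K ≤ P)
    (W : Finset ℕ) (hW : ∀ w ∈ W, w < P) (hc : W.card = t + 1) :
    pr (fun B : Fin (t + 1) → Fin P => ∀ w ∈ W, pv P (t + 1) (ext B) w % K = j) ≤
      (2 / (K : ℝ)) ^ (t + 1) := by
  have hP0 : 0 < P := hP.pos
  have hPr : (0 : ℝ) < P := by exact_mod_cast hP0
  rw [pr_eq_card, Fintype.card_fun, Fintype.card_fin, Fintype.card_fin, Nat.cast_pow,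
    div_le_iff₀ (pow_pos hPr _), ← mul_pow]
  have key : Nat.card {B : Fin (t + 1) → Fin P // ∀ w ∈ W, pv P (t + 1) (ext B) w % K = j} ≤
      ((Finset.range P).filter fun y => y % K = j).card ^ (t + 1) := by
    rw [Nat.card_eq_fintype_card, Fintype.card_subtype]
    calc (Finset.univ.filter fun B : Fin (t + 1) → Fin P =>
            ∀ w ∈ W, pv P (t + 1) (ext B) w % K = j).card
        ≤ (W.pi fun _ => (Finset.range P).filter fun y => y % K = j).card := by
          refine Finset.card_le_card_of_injOn (fun B w _ => pv P (t + 1) (ext B) w) ?_ ?_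
          · intro B hB
            have hB' := (Finset.mem_filter.1 (Finset.mem_coe.1 hB)).2
            rw [Finset.mem_coe, Finset.mem_pi]
            intro w hw
            rw [Finset.mem_filter, Finset.mem_range]
            exact ⟨Nat.mod_lt _ hP0, hB' w hw⟩
          · intro B _ B' _ h
            have h' : ∀ w ∈ W, pv P (t + 1) (ext B) w = pv P (t + 1) (ext B') w := by
              intro w hw
              exact congrFun (congrFun h w) hw
            have hl := hLag P (t + 1) hP W hW hc.le (fun w => pv P (t + 1) (ext B') w)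
              (fun w _ => Nat.mod_lt _ hP0)
            rw [hc, Nat.sub_self, pow_zero, Nat.card_eq_one_iff_unique] at hl
            have := hl.1
            have := Subsingleton.elim
              (⟨B, h'⟩ : {θ : Fin (t + 1) → Fin P // ∀ w ∈ W,
                pv P (t + 1) (ext θ) w = pv P (t + 1) (ext B') w}) ⟨B', fun w _ => rfl⟩
            exact congrArg Subtype.val this
      _ = ((Finset.range P).filter fun y => y % K = j).card ^ (t + 1) := by
          rw [Finset.card_pi, Finset.prod_const, hc]
  calc (Nat.card {B : Fin (t + 1) → Fin P // ∀ w ∈ W, pv P (t + 1) (ext B) w % K = j} : ℝ)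
      ≤ ((((Finset.range P).filter fun y => y % K = j).card ^ (t + 1) : ℕ) : ℝ) := by
        exact_mod_cast key
    _ = (((Finset.range P).filter fun y => y % K = j).card : ℝ) ^ (t + 1) := by push_cast; rfl
    _ ≤ (2 / (K : ℝ) * P) ^ (t + 1) :=
        pow_le_pow_left₀ (Nat.cast_nonneg _) (card_mod_le_real P K j hK hKP) _

/-- The partitions for a fixed injective hash function. -/
theorem inj_case (hLag : LagStmt) (P K t e : ℕ) (hP : P.Prime) (hK : 0 < K) (hKP : K ≤ P)
    (U : Finset ℕ) (z : ℕ) (hz : Set.InjOn (fun v => hs P e z v) (U : Set ℕ)) :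
    pr (fun B : Fin (t + 1) → Fin P =>
      ∃ j < K, t < (U.filter fun v => pv P (t + 1) (ext B) (hs P e z v) % K = j).card) ≤
      (U.card.choose (t + 1)) * 2 ^ (t + 1) / (K : ℝ) ^ t := by
  have hK' : (0 : ℝ) < K := by exact_mod_cast hK
  calc pr (fun B : Fin (t + 1) → Fin P =>
      ∃ j < K, t < (U.filter fun v => pv P (t + 1) (ext B) (hs P e z v) % K = j).card)
      ≤ pr (fun B : Fin (t + 1) → Fin P => ∃ p ∈ Finset.range K ×ˢ U.powersetCard (t + 1),
          ∀ w ∈ p.2.image (fun v => hs P e z v), pv P (t + 1) (ext B) w % K = p.1) := by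
        refine pr_mono fun B => ?_
        rintro ⟨j, hj, hc⟩
        obtain ⟨U', hU', hc'⟩ := Finset.exists_subset_card_eq (Nat.succ_le_of_lt hc)
        refine ⟨(j, U'), ?_, ?_⟩
        · rw [Finset.mem_product, Finset.mem_range, Finset.mem_powersetCard]
          exact ⟨hj, hU'.trans (Finset.filter_subset _ _), hc'⟩
        · intro w hw
          obtain ⟨v, hv, rfl⟩ := Finset.mem_image.1 hw
          exact (Finset.mem_filter.1 (hU' hv)).2
    _ ≤ ∑ p ∈ Finset.range K ×ˢ U.powersetCard (t + 1),
          pr (fun B : Fin (t + 1) → Fin P =>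
            ∀ w ∈ p.2.image (fun v => hs P e z v), pv P (t + 1) (ext B) w % K = p.1) :=
        pr_exists_le _ _
    _ ≤ ∑ p ∈ Finset.range K ×ˢ U.powersetCard (t + 1), (2 / (K : ℝ)) ^ (t + 1) := by
        refine Finset.sum_le_sum fun p hp => ?_
        rw [Finset.mem_product, Finset.mem_powersetCard] at hp
        refine one_set hLag P K t p.1 hP hK hKP _ ?_ ?_
        · intro w hw
          obtain ⟨v, _, rfl⟩ := Finset.mem_image.1 hw
          exact Nat.mod_lt _ hP.pos
        · rw [Finset.card_image_of_injOn (hz.mono (by exact_mod_cast hp.2.1)), hp.2.2]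
    _ = (U.card.choose (t + 1)) * 2 ^ (t + 1) / (K : ℝ) ^ t := by
        rw [Finset.sum_const, Finset.card_product, Finset.card_range, Finset.card_powersetCard,
          nsmul_eq_mul, Nat.cast_mul, div_pow, pow_succ (K : ℝ) t]
        field_simp

/-- **DT-BAL.** -/
theorem bal (hLag : LagStmt) (hInj : InjStmt) : BalStmt := by
  intro P K t e W hP hK hKP U hU hW
  have hK' : (0 : ℝ) < K := by exact_mod_cast hK
  have : NeZero P := ⟨hP.ne_zero⟩
  obtain ⟨NI, hNI⟩ : ∃ NI : Fin P → Prop,
    NI = fun z : Fin P => ¬ Set.InjOn (fun v => hs P e z v) (U : Set ℕ) := ⟨_, rfl⟩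
  set C : ℝ := (W.choose (t + 1)) * 2 ^ (t + 1) / (K : ℝ) ^ t with hC
  have hC0 : 0 ≤ C := by rw [hC]; positivity
  have hstep : ∀ z : Fin P,
      pr (fun B : Fin (t + 1) → Fin P => ∃ j < K,
        t < (U.filter fun v => pt P K t e (ext (Fin.cons z B : Fin (t + 2) → Fin P)) v = j).card) ≤
      (if NI z then (1 : ℝ) else 0) + C := by
    intro z
    have hpt : ∀ (B : Fin (t + 1) → Fin P) (v : ℕ),
        pt P K t e (ext (Fin.cons z B : Fin (t + 2) → Fin P)) v =
          pv P (t + 1) (ext B) (hs P e z v) % K := by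
      intro B v
      unfold pt
      rw [ext_cons_zero, show (fun i => ext (Fin.cons z B : Fin (t + 2) → Fin P) (i + 1)) = ext B
        from funext fun i => ext_cons_succ z B i]
    by_cases hz : Set.InjOn (fun v => hs P e z v) (U : Set ℕ)
    · rw [if_neg (show ¬ NI z by rw [hNI]; exact not_not.2 hz), zero_add]
      have h1 := inj_case hLag P K t e hP hK hKP U z hz
      calc pr (fun B : Fin (t + 1) → Fin P => ∃ j < K,
            t < (U.filter fun v =>
              pt P K t e (ext (Fin.cons z B : Fin (t + 2) → Fin P)) v = j).card)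
          = pr (fun B : Fin (t + 1) → Fin P => ∃ j < K,
            t < (U.filter fun v => pv P (t + 1) (ext B) (hs P e z v) % K = j).card) := by
            refine pr_congr fun B => ?_
            simp only [hpt]
        _ ≤ (U.card.choose (t + 1)) * 2 ^ (t + 1) / (K : ℝ) ^ t := h1
        _ ≤ C := by
            rw [hC]
            have : (U.card.choose (t + 1) : ℝ) ≤ (W.choose (t + 1) : ℝ) := by
              exact_mod_cast Nat.choose_le_choose _ hW
            gcongr
    · rw [if_pos (show NI z by rw [hNI]; exact hz)]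
      have := pr_le_one (fun B : Fin (t + 1) → Fin P => ∃ j < K,
        t < (U.filter fun v => pt P K t e (ext (Fin.cons z B : Fin (t + 2) → Fin P)) v = j).card)
      linarith
  have hsplit : pr (fun A : Fin (t + 2) → Fin P =>
      ∃ j < K, t < (U.filter fun v => pt P K t e (ext A) v = j).card) =
      av (fun z : Fin P => pr (fun B : Fin (t + 1) → Fin P => ∃ j < K,
        t < (U.filter fun v =>
          pt P K t e (ext (Fin.cons z B : Fin (t + 2) → Fin P)) v = j).card)) := by
    rw [← pr_equiv (Fin.consEquiv fun _ : Fin (t + 2) => Fin P)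
      (fun A : Fin (t + 2) → Fin P =>
        ∃ j < K, t < (U.filter fun v => pt P K t e (ext A) v = j).card), pr_eq_av, av_prod]
    rfl
  rw [hsplit]
  calc av (fun z : Fin P => pr (fun B : Fin (t + 1) → Fin P => ∃ j < K,
        t < (U.filter fun v =>
          pt P K t e (ext (Fin.cons z B : Fin (t + 2) → Fin P)) v = j).card))
      ≤ av (fun z : Fin P => (if NI z then (1 : ℝ) else 0) + C) :=
        av_mono hstep
    _ = pr (fun z : Fin P => ¬ Set.InjOn (fun v => hs P e z v) (U : Set ℕ)) + C := by
        rw [av_add, av_const, ← hNI]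
        rfl
    _ ≤ (W : ℝ) ^ 2 * e / P + C := by
        have := hInj P e W hP (U : Set ℕ) (fun v hv => hU v (by exact_mod_cast hv))
          U.finite_toSet (by rw [Set.ncard_coe_finset]; exact hW)
        linarith

end Pool.Agent.Helper38.DT
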